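import Pool.Agent.W203.BE.Defs

/-!
# Bochner-Riesz means over ellipsoids: statements
-/

set_option autoImplicit false

open MeasureTheory Set Complex
open scoped ENNReal

namespace Pool.Agent.W203.BE

/-- BAS. The one-dimensional Gaussian. -/
def S_BAS : Prop := ∀ α : ℂ, 0 < α.re →
  Continuous (g1 α) ∧ Integrable (g1 α) ∧
  (∀ x : ℝ, ‖g1 α x‖ = Real.sqrt (Real.pi / ‖α‖) *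
    Real.exp (-(Real.pi ^ 2 * α.re / ‖α‖ ^ 2 * x ^ 2))) ∧
  (∫⁻ x, ‖g1 α x‖ₑ = ENNReal.ofReal (Real.sqrt (‖α‖ / α.re))) ∧
  (∀ x : ℝ, Integrable (fun ξ : ℝ => cexp (-(α * (ξ : ℂ) ^ 2)) *
      cexp (2 * (Real.pi : ℂ) * I * ((x * ξ : ℝ) : ℂ))) ∧
    g1 α x = ∫ ξ : ℝ, cexp (-(α * (ξ : ℂ) ^ 2)) * cexp (2 * (Real.pi : ℂ) * I * ((x * ξ : ℝ) : ℂ))) ∧
  (∀ ξ : ℝ, ∫ x : ℝ, g1 α x * cexp (-(2 * (Real.pi : ℂ) * I * ((x * ξ : ℝ) : ℂ))) =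
    cexp (-(α * (ξ : ℂ) ^ 2))) ∧
  (∀ β : ℂ, 0 < β.re → ∀ x : ℝ, ∫ y, g1 α (x - y) * g1 β y = g1 (α + β) x)

/-- BASN. The `n`-dimensional Gaussian. -/
def S_BASN : Prop := ∀ (n : ℕ) (α : Fin n → ℂ), (∀ j, 0 < (α j).re) →
  Continuous (gn α) ∧ Integrable (gn α) ∧ (∃ C : ℝ, ∀ x, ‖gn α x‖ ≤ C) ∧
  (∀ x : Fin n → ℝ, gn α x = ∫ ξ : Fin n → ℝ, cexp (-(∑ j, α j * (ξ j : ℂ) ^ 2)) *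
    cexp (2 * (Real.pi : ℂ) * I * ((∑ j, x j * ξ j : ℝ) : ℂ))) ∧
  (∀ f : (Fin n → ℝ) → ℂ, Integrable f →
    (∀ x, Integrable (fun y => gn α (x - y) * f y)) ∧ Continuous (T α f) ∧ Integrable (T α f) ∧
    (∀ x, T α f x = ∫ ξ : Fin n → ℝ, cexp (-(∑ j, α j * (ξ j : ℂ) ^ 2)) *
      (∫ y : Fin n → ℝ, cexp (-(2 * (Real.pi : ℂ) * I * ((∑ j, y j * ξ j : ℝ) : ℂ))) * f y) *
      cexp (2 * (Real.pi : ℂ) * I * ((∑ j, x j * ξ j : ℝ) : ℂ))) ∧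
    ∀ β : Fin n → ℂ, (∀ j, 0 < (β j).re) → ∀ x, T β (T α f) x = T (fun j => β j + α j) f x)

/-- MEAS. Joint measurability. -/
def S_MEAS : Prop := ∀ (n : ℕ) (X : Type) [MeasurableSpace X] (α : X → Fin n → ℂ)
  (f : X → (Fin n → ℝ) → ℂ), Measurable α → Measurable (Function.uncurry f) →
  Measurable (fun q : X × (Fin n → ℝ) => T (α q.1) (f q.1) q.2)

/-- L2. Contractivity on `L^2`. -/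
def S_L2 : Prop := ∀ α : ℂ, 0 < α.re → ∀ g : ℝ → ℂ, Measurable g → Integrable g →
  ∫⁻ x, ‖T1 α g x‖ₑ ^ 2 ≤ ∫⁻ x, ‖g x‖ₑ ^ 2

/-- SQ. The square of a Gaussian convolution is a Gaussian convolution. -/
def S_SQ : Prop := ∀ z : ℂ, 0 < z.re → ∀ g : ℝ → ℂ, Measurable g → Integrable g →
  ∫⁻ x, ‖T1 ((Real.pi : ℂ) / z) g x‖ₑ ^ 4 ≤ ENNReal.ofReal (2 * ‖z‖) * ∫⁻ p, ‖A g z p‖ₑ ^ 2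

/-- PL. Plancherel in the parameter `w`. -/
def S_PL : Prop := ∃ C : ℝ, 0 < C ∧ ∀ G : ℝ → ℂ, Measurable G → Integrable G →
  (∀ u, G (-u) = G u) → ∀ r w₀ : ℝ, 0 < r → 0 < w₀ →
  ∫⁻ w in Icc w₀ (8 * w₀),
      ‖∫ u : ℝ, G u * cexp (-(2 * (Real.pi : ℂ) * (⟨r, -w⟩ : ℂ) * (u : ℂ) ^ 2))‖ₑ ^ 2 ≤
    ENNReal.ofReal C * ((∫⁻ u in {u : ℝ | 1 < |u|}, ‖G u‖ₑ ^ 2 *
        ENNReal.ofReal (Real.exp (-(4 * Real.pi * r * u ^ 2)) / |u|)) +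
      ENNReal.ofReal w₀ * ∫⁻ u in {u : ℝ | |u| ≤ 1}, ‖G u‖ₑ ^ 2)

/-- L4A. The `L^4` estimate on a vertical line. -/
def S_L4A : Prop := ∃ C : ℝ, 0 < C ∧ ∀ g : ℝ → ℂ, Measurable g → Integrable g →
  ∀ r w₀ : ℝ, 0 < r → r ≤ w₀ → w₀ ≤ 1 →
  ∫⁻ w in Icc w₀ (8 * w₀), ∫⁻ x, ‖T1 ((Real.pi : ℂ) / (⟨r, -w⟩ : ℂ)) g x‖ₑ ^ 4 ≤
    ENNReal.ofReal (C * w₀ * (1 + Real.log (1 / r))) * ∫⁻ x, ‖g x‖ₑ ^ 4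

/-- L4B. The `L^4` estimate for large `s`. -/
def S_L4B : Prop := ∃ C : ℝ, 0 < C ∧ ∀ g : ℝ → ℂ, Measurable g → Integrable g →
  ∀ s : ℝ, 1 ≤ |s| →
  ∫⁻ a in Icc (1 : ℝ) 2, ∫⁻ x, ‖T1 (al 1 a s) g x‖ₑ ^ 4 ≤
    ENNReal.ofReal (C * (1 + Real.log |s|)) * ∫⁻ x, ‖g x‖ₑ ^ 4

/-- YNG. Young's inequality in one variable. -/
def S_YNG : Prop := ∀ α : ℂ, 0 < α.re → ∀ g : ℝ → ℂ, Measurable g →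
  ∫⁻ x, ‖T1 α g x‖ₑ ^ 4 ≤ ENNReal.ofReal ((‖α‖ / α.re) ^ 2) * ∫⁻ x, ‖g x‖ₑ ^ 4

/-- L4. The `L^4` estimate in one variable. -/
def S_L4 : Prop := ∃ C : ℝ, 1 ≤ C ∧ ∀ κ : ℝ, 0 < κ → ∀ s : ℝ, ∀ g : ℝ → ℂ, Measurable g →
  Integrable g →
  ∫⁻ a in Icc (1 : ℝ) 2, ∫⁻ x, ‖T1 (al κ a s) g x‖ₑ ^ 4 ≤
    ENNReal.ofReal (C * (1 + Real.log (1 + |s|))) * ∫⁻ x, ‖g x‖ₑ ^ 4

/-- ITER. From one variable to `n` variables. -/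
def S_ITER : Prop := ∀ (q : ℕ), 0 < q → ∀ (κ s : ℝ) (B : ℝ≥0∞), 0 < κ → B ≠ ⊤ →
  (∀ g : ℝ → ℂ, Measurable g → Integrable g →
    ∫⁻ a in Icc (1 : ℝ) 2, ∫⁻ x, ‖T1 (al κ a s) g x‖ₑ ^ q ≤ B * ∫⁻ x, ‖g x‖ₑ ^ q) →
  ∀ (n : ℕ) (f : (Fin n → ℝ) → ℂ), Measurable f → Integrable f →
    ∫⁻ a in Icc (fun _ : Fin n => (1 : ℝ)) (fun _ => 2),
        ∫⁻ x, ‖T (fun j => al κ (a j) s) f x‖ₑ ^ q ≤ B ^ n * ∫⁻ x, ‖f x‖ₑ ^ q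

/-- CORE. The estimate for the Gaussian operators on average over `a`. -/
def S_CORE : Prop := ∀ (n : ℕ) (p : ℝ), 2 ≤ p → p ≤ 4 → ∃ C : ℝ, 0 < C ∧
  ∀ κ : ℝ, 0 < κ → ∀ s : ℝ, ∀ f : (Fin n → ℝ) → ℂ, Measurable f → Integrable f →
    ∫⁻ a in Icc (fun _ : Fin n => (1 : ℝ)) (fun _ => 2),
        ∫⁻ x, ‖T (fun j => al κ (a j) s) f x‖ₑ ^ p ≤
      ENNReal.ofReal (C * (1 + Real.log (1 + |s|)) ^ n) * ∫⁻ x, ‖f x‖ₑ ^ p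

/-- DJ. The dyadic band-pass operators. -/
def S_DJ : Prop := ∀ (n : ℕ) (p : ℝ), 2 ≤ p → p ≤ 4 → ∃ C : ℝ, 0 < C ∧
  ∀ s : ℝ, ∀ f : (Fin n → ℝ) → ℂ, Measurable f → Integrable f →
    ∑' j : ℤ, ∫⁻ x, ‖D ((4 : ℝ) ^ (-j)) s f x‖ₑ ^ p ≤
      ENNReal.ofReal (C * (1 + Real.log (1 + |s|))) * ∫⁻ x, ‖f x‖ₑ ^ p

/-- HL. The maximal inequality for product Gaussian kernels. -/
def S_HL : Prop := ∀ (n : ℕ) (p : ℝ), 1 < p → ∃ C : ℝ, 0 < C ∧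
  ∀ f : (Fin n → ℝ) → ℝ≥0∞, Measurable f →
    ∫⁻ x, MM f x ^ p ≤ ENNReal.ofReal C * ∫⁻ x, f x ^ p

/-- LOW. The low frequency part is controlled by the maximal function. -/
def S_LOW : Prop := ∀ n : ℕ, ∃ C : ℝ, 0 < C ∧ ∀ κ : ℝ, 0 < κ → ∀ s : ℝ, ∀ a : Fin n → ℝ,
  a ∈ Icc (fun _ : Fin n => (1 : ℝ)) (fun _ => 2) → ∀ f : (Fin n → ℝ) → ℂ, Measurable f →
  ∀ x, ‖T (fun j => be κ (a j) s) f x‖ₑ ≤ ENNReal.ofReal C * MM (fun y => ‖f y‖ₑ) x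

/-- REP. Subordination. -/
def S_REP : Prop := ∀ (n : ℕ) (δ : ℝ), 0 < δ → ∃ C : ℝ, 0 < C ∧
  ∀ f : (Fin n → ℝ) → ℂ, Measurable f → Integrable f →
  ∀ a : Fin n → ℝ, a ∈ Icc (fun _ : Fin n => (1 : ℝ)) (fun _ => 2) → ∀ (j : ℤ) (R : ℝ),
    (2 : ℝ) ^ j ≤ R → R ≤ (2 : ℝ) ^ (j + 1) → ∀ x,
    ‖S δ a R f x‖ₑ ≤ ENNReal.ofReal C * ∫⁻ s : ℝ, ENNReal.ofReal ((1 + |s|) ^ (-1 - δ)) *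
      ‖T (fun i => ga ((4 : ℝ) ^ (-j)) (a i) s) f x‖ₑ

/-- MAIN. -/
def S_MAIN : Prop := ∀ (n : ℕ) (p δ : ℝ), 2 ≤ p → p ≤ 4 → 0 < δ → ∃ C : ℝ, 0 < C ∧
  ∀ f : (Fin n → ℝ) → ℂ, Integrable f →
    ∫⁻ a in Icc (fun _ : Fin n => (1 : ℝ)) (fun _ => 2),
        ∫⁻ x, (⨆ R : {R : ℝ // 0 < R}, ‖S δ a R f x‖ₑ) ^ p ≤
      ENNReal.ofReal C * ∫⁻ x, ‖f x‖ₑ ^ p

end Pool.Agent.W203.BE
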