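import Pool.Agent.W240.BE.Bas
import Pool.Agent.W345.BE.Basn
import Pool.Agent.W249.BE.Meas
import Pool.Agent.W918.BE.Sq
import Pool.Agent.W351.BE.Pl
import Pool.Agent.W125.BE.Yng
import Pool.Agent.W311.BE.L4
import Pool.Agent.W975.BE.Core
import Pool.Agent.W327.BE.Hl
import Pool.Agent.W52.BE.Low
import Pool.Agent.W337.BE.Rep
import Pool.Agent.W337.BE.Main
import Pool.Agent.W803.BE.DJ
import Pool.Agent.W688.BE.L2
import Pool.Agent.W688.BE.L4A
import Pool.Agent.W290.BE.Iter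
import Pool.Agent.W616.BE.L4B

/-!
# Bochner-Riesz means over ellipsoids: assembly
-/

set_option autoImplicit false

namespace Pool.Agent.W203.BE

/-- the maximal inequality on average over the ellipsoids -/
theorem main_all : S_MAIN := by
  have hBAS : S_BAS := Pool.Agent.W240.BE.bas
  have hBASN : S_BASN := Pool.Agent.W345.BE.basn hBAS
  have hMEAS : S_MEAS := Pool.Agent.W249.BE.meas
  have hL2 : S_L2 := Pool.Agent.W688.BE.l2 hBAS
  have hSQ : S_SQ := Pool.Agent.W918.BE.sqT hBAS hL2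
  have hPL : S_PL := Pool.Agent.W351.BE.pl
  have hL4A : S_L4A := Pool.Agent.W688.BE.l4a hSQ hPL
  have hYNG : S_YNG := Pool.Agent.W125.BE.yng hBAS
  have hL4B : S_L4B := Pool.Agent.W616.BE.l4b hBAS hYNG hL4A
  have hL4 : S_L4 := Pool.Agent.W311.BE.l4 hBAS hYNG hL4B
  have hITER : S_ITER := Pool.Agent.W290.BE.iter hBAS hBASN hMEAS
  have hCORE : S_CORE := Pool.Agent.W975.BE.core hBASN hMEAS hL2 hL4 hITER
  have hDJ : S_DJ := Pool.Agent.W803.BE.dj hBAS hBASN hMEAS
  have hHL : S_HL := Pool.Agent.W327.BE.hl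
  have hLOW : S_LOW := Pool.Agent.W52.BE.low hBAS
  have hREP : S_REP := Pool.Agent.W337.BE.rep hBASN hMEAS
  exact Pool.Agent.W337.BE.Mn.main hBASN hMEAS hCORE hDJ hHL hLOW hREP

end Pool.Agent.W203.BE
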