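import Mathlib

/-!
# Bochner-Riesz means over ellipsoids: definitions

`T1 α` (one variable) and `T α` (`n` variables) are the Fourier multipliers
`exp (-α ξ^2)` and `exp (- ∑ α_j ξ_j^2)` (`Re α > 0`), written as convolutions with complex
Gaussians.
-/

set_option autoImplicit false

open MeasureTheory Set Complex
open scoped ENNReal

namespace Pool.Agent.W203.BE

/-- one-dimensional Gaussian kernel with Fourier transform `exp (-α ξ^2)` -/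
noncomputable def g1 (α : ℂ) (x : ℝ) : ℂ :=
  ((Real.pi : ℂ) / α) ^ (1 / 2 : ℂ) * cexp (-((Real.pi : ℂ) ^ 2 / α) * (x : ℂ) ^ 2)

/-- convolution with `g1 α` -/
noncomputable def T1 (α : ℂ) (g : ℝ → ℂ) (x : ℝ) : ℂ := ∫ y, g1 α (x - y) * g y

/-- product kernel -/
noncomputable def gn {n : ℕ} (α : Fin n → ℂ) (x : Fin n → ℝ) : ℂ := ∏ j, g1 (α j) (x j)

/-- convolution with `gn α` -/
noncomputable def T {n : ℕ} (α : Fin n → ℂ) (f : (Fin n → ℝ) → ℂ) (x : Fin n → ℝ) : ℂ :=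
  ∫ y, gn α (x - y) * f y

/-- parameter of the full operator, `κ a (1 + 2 π i s)` -/
noncomputable def ga (κ a s : ℝ) : ℂ := ⟨κ * a, κ * (2 * Real.pi * a * s)⟩

/-- `ga κ a s - κ / 2` -/
noncomputable def al (κ a s : ℝ) : ℂ := ⟨κ * (a - 1 / 2), κ * (2 * Real.pi * a * s)⟩

/-- `ga κ a s + κ (1 + |s|)` -/
noncomputable def be (κ a s : ℝ) : ℂ := ⟨κ * (a + 1 + |s|), κ * (2 * Real.pi * a * s)⟩

/-- band-pass operator -/
noncomputable def D {n : ℕ} (κ s : ℝ) (f : (Fin n → ℝ) → ℂ) (x : Fin n → ℝ) : ℂ :=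
  T (fun _ => ((κ / 2 : ℝ) : ℂ)) f x - T (fun _ => ((κ / 2 + κ * (1 + |s|) : ℝ) : ℂ)) f x

/-- the quadratic quantity of the `L^4` estimate -/
noncomputable def A (g : ℝ → ℂ) (z : ℂ) (p : ℝ) : ℂ :=
  ∫ u : ℝ, g (p + u) * g (p - u) * cexp (-(2 * (Real.pi : ℂ) * z * (u : ℂ) ^ 2))

/-- Bochner-Riesz mean over the ellipsoid `∑ a_j ξ_j^2 ≤ R^2` -/
noncomputable def S {n : ℕ} (δ : ℝ) (a : Fin n → ℝ) (R : ℝ) (f : (Fin n → ℝ) → ℂ)
    (x : Fin n → ℝ) : ℂ :=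
  ∫ ξ : Fin n → ℝ, (((max (1 - (∑ j, a j * ξ j ^ 2) / R ^ 2) 0) ^ δ : ℝ) : ℂ) *
    (∫ y : Fin n → ℝ, cexp (-(2 * (Real.pi : ℂ) * I * ((∑ j, y j * ξ j : ℝ) : ℂ))) * f y) *
    cexp (2 * (Real.pi : ℂ) * I * ((∑ j, x j * ξ j : ℝ) : ℂ))

/-- one-dimensional maximal kernel -/
noncomputable def mk (t x : ℝ) : ℝ≥0∞ := ENNReal.ofReal (t⁻¹ * Real.exp (-(x ^ 2 / (20 * t ^ 2))))

/-- maximal function with product Gaussian kernels -/
noncomputable def MM {n : ℕ} (f : (Fin n → ℝ) → ℝ≥0∞) (x : Fin n → ℝ) : ℝ≥0∞ :=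
  ⨆ t : {t : ℝ // 0 < t}, ∫⁻ y, (∏ j, mk t (x j - y j)) * f y

end Pool.Agent.W203.BE
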