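import Pool.Agent.W203.BE.All

/-!
# Bochner-Riesz means over ellipsoids: all ellipsoids with the axes of the coordinates
-/

set_option autoImplicit false

open MeasureTheory Set Complex
open scoped ENNReal

namespace Pool.Agent.W203.BE

variable {n : ℕ}

/-- coordinatewise dilation -/
noncomputable def dil (c : Fin n → ℝ) (hc : ∀ j, 0 < c j) : (Fin n → ℝ) ≃ₜ (Fin n → ℝ) where
  toFun x := fun j => c j * x j
  invFun x := fun j => (c j)⁻¹ * x j
  left_inv x := by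
    funext j
    have := (hc j).ne'
    field_simp
  right_inv x := by
    funext j
    have := (hc j).ne'
    field_simp
  continuous_toFun := by fun_prop
  continuous_invFun := by fun_prop

@[simp] lemma dil_apply (c : Fin n → ℝ) (hc : ∀ j, 0 < c j) (x : Fin n → ℝ) (j : Fin n) :
    dil c hc x j = c j * x j := rfl

lemma map_dil (c : Fin n → ℝ) (hc : ∀ j, 0 < c j) :
    (volume : Measure (Fin n → ℝ)) = ENNReal.ofReal (∏ j, c j) • Measure.map (dil c hc) volume := by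
  classical
  have hdet : (Matrix.diagonal c).det = ∏ j, c j := Matrix.det_diagonal
  have hpos : 0 < ∏ j, c j := Finset.prod_pos fun j _ => hc j
  have h := Real.smul_map_diagonal_volume_pi (D := c) (by rw [hdet]; exact hpos.ne')
  rw [hdet, abs_of_pos hpos] at h
  have e : (⇑(Matrix.toLin' (Matrix.diagonal c)) : (Fin n → ℝ) → (Fin n → ℝ)) = dil c hc := by
    funext x j
    rw [Matrix.toLin'_apply, Matrix.mulVec_diagonal, dil_apply]
  rw [e] at h
  exact h.symm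

lemma lintegral_dil (c : Fin n → ℝ) (hc : ∀ j, 0 < c j) (g : (Fin n → ℝ) → ℝ≥0∞) :
    ∫⁻ x, g x = ENNReal.ofReal (∏ j, c j) * ∫⁻ x, g (dil c hc x) := by
  conv_lhs => rw [map_dil c hc]
  rw [lintegral_smul_measure, smul_eq_mul]
  congr 1
  exact lintegral_map_equiv g (dil c hc).toMeasurableEquiv

lemma integral_dil (c : Fin n → ℝ) (hc : ∀ j, 0 < c j) (g : (Fin n → ℝ) → ℂ) :
    ∫ x, g x = ((∏ j, c j : ℝ) : ℂ) * ∫ x, g (dil c hc x) := by
  have hpos : 0 < ∏ j, c j := Finset.prod_pos fun j _ => hc j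
  conv_lhs => rw [map_dil c hc]
  rw [integral_smul_measure, ENNReal.toReal_ofReal hpos.le, Complex.real_smul]
  congr 1
  exact integral_map_equiv (dil c hc).toMeasurableEquiv g

lemma integrable_dil (c : Fin n → ℝ) (hc : ∀ j, 0 < c j) {g : (Fin n → ℝ) → ℂ}
    (hg : Integrable g) : Integrable (fun x => g (dil c hc x)) := by
  have hpos : 0 < ∏ j, c j := Finset.prod_pos fun j _ => hc j
  have h1 : Integrable g (Measure.map (dil c hc) volume) := by
    have h2 : Integrable g (ENNReal.ofReal (∏ j, c j) • Measure.map (dil c hc) volume) := by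
      rw [← map_dil c hc]
      exact hg
    exact (integrable_smul_measure (by simpa using hpos) ENNReal.ofReal_ne_top).1 h2
  exact ((dil c hc).toMeasurableEquiv.measurableEmbedding.integrable_map_iff).1 h1

/-- dilation of the operator -/
lemma S_dil (δ : ℝ) (a c : Fin n → ℝ) (hc : ∀ j, 0 < c j) (R : ℝ) (f : (Fin n → ℝ) → ℂ)
    (x : Fin n → ℝ) :
    S δ (fun j => c j ^ 2 * a j) R f (dil c hc x) = S δ a R (fun y => f (dil c hc y)) x := by
  have hd : ∀ j, 0 < (c j)⁻¹ := fun j => inv_pos.2 (hc j)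
  unfold S
  rw [integral_dil (fun j => (c j)⁻¹) hd, ← integral_const_mul]
  refine integral_congr_ae (Filter.Eventually.of_forall fun ξ => ?_)
  have e1 : (∑ j, (c j ^ 2 * a j) * (dil (fun j => (c j)⁻¹) hd ξ) j ^ 2) = ∑ j, a j * ξ j ^ 2 := by
    refine Finset.sum_congr rfl fun j _ => ?_
    rw [dil_apply]
    have := (hc j).ne'
    field_simp
  have e2 : (∑ j, (dil c hc x) j * (dil (fun j => (c j)⁻¹) hd ξ) j) = ∑ j, x j * ξ j := by
    refine Finset.sum_congr rfl fun j _ => ?_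
    rw [dil_apply, dil_apply]
    have := (hc j).ne'
    field_simp
  have e3 : (∫ y : Fin n → ℝ, cexp (-(2 * (Real.pi : ℂ) * I *
      ((∑ j, y j * (dil (fun j => (c j)⁻¹) hd ξ) j : ℝ) : ℂ))) * f y) =
      ((∏ j, c j : ℝ) : ℂ) * ∫ y : Fin n → ℝ, cexp (-(2 * (Real.pi : ℂ) * I *
      ((∑ j, y j * ξ j : ℝ) : ℂ))) * f (dil c hc y) := by
    rw [integral_dil c hc]
    congr 1
    refine integral_congr_ae (Filter.Eventually.of_forall fun y => ?_)
    have e4 : (∑ j, (dil c hc y) j * (dil (fun j => (c j)⁻¹) hd ξ) j) = ∑ j, y j * ξ j := by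
      refine Finset.sum_congr rfl fun j _ => ?_
      rw [dil_apply, dil_apply]
      have := (hc j).ne'
      field_simp
    simp only [e4]
  have e5 : ((∏ j, (c j)⁻¹ : ℝ) : ℂ) * ((∏ j, c j : ℝ) : ℂ) = 1 := by
    rw [← ofReal_mul, ← Finset.prod_mul_distrib]
    have : (∏ j, (c j)⁻¹ * c j) = 1 :=
      Finset.prod_eq_one fun j _ => inv_mul_cancel₀ (hc j).ne'
    rw [this, ofReal_one]
  simp only [e1, e2, e3]
  linear_combination ((((max (1 - (∑ j, a j * ξ j ^ 2) / R ^ 2) 0) ^ δ : ℝ) : ℂ) *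
    (∫ y : Fin n → ℝ, cexp (-(2 * (Real.pi : ℂ) * I * ((∑ j, y j * ξ j : ℝ) : ℂ))) *
      f (dil c hc y)) * cexp (2 * (Real.pi : ℂ) * I * ((∑ j, x j * ξ j : ℝ) : ℂ))) * e5

/-- the maximal function -/
noncomputable def Mx (δ : ℝ) (a : Fin n → ℝ) (f : (Fin n → ℝ) → ℂ) (x : Fin n → ℝ) : ℝ≥0∞ :=
  ⨆ R : {R : ℝ // 0 < R}, ‖S δ a R f x‖ₑ

/-- the inequality on every box -/
theorem boxes (p δ : ℝ) (hp : 2 ≤ p) (hp4 : p ≤ 4) (hδ : 0 < δ) : ∃ C : ℝ, 0 < C ∧
    ∀ c : Fin n → ℝ, (∀ j, 0 < c j) → ∀ f : (Fin n → ℝ) → ℂ, Integrable f →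
      ∫⁻ a in Icc c (fun j => 2 * c j), ∫⁻ x, Mx δ a f x ^ p ≤
        ENNReal.ofReal (C * ∏ j, c j) * ∫⁻ x, ‖f x‖ₑ ^ p := by
  obtain ⟨C, hC, h⟩ := main_all n p δ hp hp4 hδ
  refine ⟨C, hC, fun c hc f hf => ?_⟩
  set d : Fin n → ℝ := fun j => Real.sqrt (c j) with hd
  have hd0 : ∀ j, 0 < d j := fun j => Real.sqrt_pos.2 (hc j)
  have hdc : ∀ j, d j ^ 2 = c j := fun j => Real.sq_sqrt (hc j).le
  have hposd : 0 < ∏ j, d j := Finset.prod_pos fun j _ => hd0 j
  have hposc : 0 < ∏ j, c j := Finset.prod_pos fun j _ => hc j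
  have hmeas : MeasurableSet (Icc c (fun j => 2 * c j)) := measurableSet_Icc
  have hmeas1 : MeasurableSet (Icc (fun _ : Fin n => (1 : ℝ)) (fun _ => 2)) := measurableSet_Icc
  -- the integral over the box
  have e1 : ∫⁻ a in Icc c (fun j => 2 * c j), ∫⁻ x, Mx δ a f x ^ p =
      ENNReal.ofReal (∏ j, c j) * ∫⁻ a in Icc (fun _ : Fin n => (1 : ℝ)) (fun _ => 2),
        ∫⁻ x, Mx δ (dil c hc a) f x ^ p := by
    rw [← lintegral_indicator hmeas, lintegral_dil c hc, ← lintegral_indicator hmeas1]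
    congr 1
    refine lintegral_congr fun a => ?_
    have hiff : dil c hc a ∈ Icc c (fun j => 2 * c j) ↔ a ∈ Icc (fun _ : Fin n => (1 : ℝ)) (fun _ => 2) := by
      simp only [mem_Icc, Pi.le_def, dil_apply]
      constructor
      · rintro ⟨h1, h2⟩
        exact ⟨fun j => by have := h1 j; have := hc j; by_contra hh; push Not at hh; nlinarith,
          fun j => by have := h2 j; have := hc j; by_contra hh; push Not at hh; nlinarith⟩
      · rintro ⟨h1, h2⟩
        exact ⟨fun j => by have := h1 j; have := hc j; nlinarith,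
          fun j => by have := h2 j; have := hc j; nlinarith⟩
    by_cases ha : a ∈ Icc (fun _ : Fin n => (1 : ℝ)) (fun _ => 2)
    · rw [indicator_of_mem (hiff.2 ha), indicator_of_mem ha]
    · rw [indicator_of_notMem (fun hh => ha (hiff.1 hh)), indicator_of_notMem ha]
  -- the maximal function
  have e2 : ∀ a : Fin n → ℝ, ∫⁻ x, Mx δ (dil c hc a) f x ^ p =
      ENNReal.ofReal (∏ j, d j) * ∫⁻ x, Mx δ a (fun y => f (dil d hd0 y)) x ^ p := by
    intro a
    rw [lintegral_dil d hd0]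
    congr 1
    refine lintegral_congr fun x => ?_
    have : ∀ R : {R : ℝ // 0 < R}, S δ (dil c hc a) R f (dil d hd0 x) =
        S δ a R (fun y => f (dil d hd0 y)) x := by
      intro R
      rw [← S_dil δ a d hd0 R f x]
      congr 1
      funext j
      rw [dil_apply, hdc j]
    unfold Mx
    simp only [this]
  have e3 : ∫⁻ x, ‖f x‖ₑ ^ p = ENNReal.ofReal (∏ j, d j) * ∫⁻ x, ‖f (dil d hd0 x)‖ₑ ^ p :=
    lintegral_dil d hd0 (fun x => ‖f x‖ₑ ^ p)
  have hmain := h (fun y => f (dil d hd0 y)) (integrable_dil d hd0 hf)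
  rw [e1]
  simp only [e2]
  rw [lintegral_const_mul' _ _ ENNReal.ofReal_ne_top, e3, ENNReal.ofReal_mul hC.le]
  calc ENNReal.ofReal (∏ j, c j) * (ENNReal.ofReal (∏ j, d j) *
        ∫⁻ a in Icc (fun _ : Fin n => (1 : ℝ)) (fun _ => 2),
          ∫⁻ x, Mx δ a (fun y => f (dil d hd0 y)) x ^ p)
      ≤ ENNReal.ofReal (∏ j, c j) * (ENNReal.ofReal (∏ j, d j) *
        (ENNReal.ofReal C * ∫⁻ x, ‖f (dil d hd0 x)‖ₑ ^ p)) := by
        gcongr
        exact hmain
    _ = _ := by ring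

/-! ### continuity in the radius -/

lemma supp_bdd {a : Fin n → ℝ} (ha : ∀ j, 0 < a j) (M : ℝ) :
    Bornology.IsBounded {ξ : Fin n → ℝ | ∑ j, a j * ξ j ^ 2 ≤ M} := by
  rcases isEmpty_or_nonempty (Fin n) with hn | hn
  · exact (Set.toFinite _).isBounded
  obtain ⟨j₀, hj₀⟩ := Finite.exists_min a
  refine (Metric.isBounded_closedBall (x := (0 : Fin n → ℝ)) (r := Real.sqrt (|M| / a j₀))).subset
    fun ξ hξ => ?_
  rw [mem_closedBall_zero_iff, pi_norm_le_iff_of_nonneg (Real.sqrt_nonneg _)]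
  intro j
  rw [mem_ofPred_eq] at hξ
  have h1 : a j * ξ j ^ 2 ≤ ∑ i, a i * ξ i ^ 2 :=
    Finset.single_le_sum (f := fun i => a i * ξ i ^ 2)
      (fun i _ => mul_nonneg (ha i).le (sq_nonneg _)) (Finset.mem_univ j)
  have h2 : a j₀ * ξ j ^ 2 ≤ |M| := by
    have := mul_le_mul_of_nonneg_right (hj₀ j) (sq_nonneg (ξ j))
    linarith [le_abs_self M]
  rw [Real.norm_eq_abs]
  refine Real.abs_le_sqrt ?_
  rw [le_div_iff₀ (ha j₀)]
  linarith

lemma cont_R {δ : ℝ} (hδ : 0 < δ) {a : Fin n → ℝ} (ha : ∀ j, 0 < a j) (f : (Fin n → ℝ) → ℂ)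
    (hf : Integrable f) (x : Fin n → ℝ) {R₀ : ℝ} (hR₀ : 0 < R₀) :
    ContinuousAt (fun R : ℝ => S δ a R f x) R₀ := by
  set A : ℝ := ∫ y, ‖f y‖ with hA
  have hF : ∀ ξ : Fin n → ℝ, ‖∫ y : Fin n → ℝ, cexp (-(2 * (Real.pi : ℂ) * I *
      ((∑ j, y j * ξ j : ℝ) : ℂ))) * f y‖ ≤ A := by
    intro ξ
    refine (norm_integral_le_integral_norm _).trans (le_of_eq ?_)
    refine integral_congr_ae (Filter.Eventually.of_forall fun y => ?_)
    simp only [norm_mul]
    rw [show -(2 * (Real.pi : ℂ) * I * ((∑ j, y j * ξ j : ℝ) : ℂ)) =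
      ((-(2 * Real.pi * ∑ j, y j * ξ j) : ℝ) : ℂ) * I by push_cast; ring, norm_exp_ofReal_mul_I,
      one_mul]
  have hFc : Continuous (fun ξ : Fin n → ℝ => ∫ y : Fin n → ℝ, cexp (-(2 * (Real.pi : ℂ) * I *
      ((∑ j, y j * ξ j : ℝ) : ℂ))) * f y) := by
    refine continuous_of_dominated (bound := fun y => ‖f y‖) ?_ ?_ hf.norm ?_
    · intro ξ
      refine AEStronglyMeasurable.mul ?_ hf.aestronglyMeasurable
      exact Continuous.aestronglyMeasurable (by fun_prop)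
    · intro ξ
      refine Filter.Eventually.of_forall fun y => ?_
      rw [norm_mul, show -(2 * (Real.pi : ℂ) * I * ((∑ j, y j * ξ j : ℝ) : ℂ)) =
        ((-(2 * Real.pi * ∑ j, y j * ξ j) : ℝ) : ℂ) * I by push_cast; ring,
        norm_exp_ofReal_mul_I, one_mul]
    · refine Filter.Eventually.of_forall fun y => ?_
      fun_prop
  set K : Set (Fin n → ℝ) := {ξ | ∑ j, a j * ξ j ^ 2 ≤ (2 * R₀) ^ 2} with hK
  have hKm : MeasurableSet K := measurableSet_le (by fun_prop) measurable_const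
  have hKf : volume K ≠ ⊤ := (supp_bdd ha _).measure_lt_top.ne
  unfold S
  refine continuousAt_of_dominated (bound := K.indicator fun _ => A) ?_ ?_ ?_ ?_
  · refine Filter.Eventually.of_forall fun R => ?_
    refine AEStronglyMeasurable.mul (AEStronglyMeasurable.mul ?_ hFc.aestronglyMeasurable) ?_
    · exact Measurable.aestronglyMeasurable (by fun_prop)
    · exact Continuous.aestronglyMeasurable (by fun_prop)
  · have hev : ∀ᶠ R in nhds R₀, 0 < R ∧ R < 2 * R₀ :=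
      (lt_mem_nhds hR₀).and (gt_mem_nhds (by linarith))
    filter_upwards [hev] with R hR
    refine Filter.Eventually.of_forall fun ξ => ?_
    have hq0 : 0 ≤ ∑ j, a j * ξ j ^ 2 :=
      Finset.sum_nonneg fun j _ => mul_nonneg (ha j).le (sq_nonneg _)
    rw [norm_mul, norm_mul, show 2 * (Real.pi : ℂ) * I * ((∑ j, x j * ξ j : ℝ) : ℂ) =
        ((2 * Real.pi * ∑ j, x j * ξ j : ℝ) : ℂ) * I by push_cast; ring,
        norm_exp_ofReal_mul_I, mul_one]
    have hm0 : 0 ≤ max (1 - (∑ j, a j * ξ j ^ 2) / R ^ 2) 0 := le_max_right _ _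
    by_cases hξ : ξ ∈ K
    · rw [indicator_of_mem hξ]
      have h1 : ‖(((max (1 - (∑ j, a j * ξ j ^ 2) / R ^ 2) 0) ^ δ : ℝ) : ℂ)‖ ≤ 1 := by
        rw [norm_real, Real.norm_of_nonneg (Real.rpow_nonneg hm0 _)]
        refine Real.rpow_le_one hm0 ?_ hδ.le
        refine max_le ?_ zero_le_one
        have : 0 ≤ (∑ j, a j * ξ j ^ 2) / R ^ 2 := by positivity
        linarith
      calc _ ≤ 1 * A := mul_le_mul h1 (hF ξ) (norm_nonneg _) zero_le_one
        _ = A := one_mul _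
    · rw [indicator_of_notMem hξ]
      have h1 : max (1 - (∑ j, a j * ξ j ^ 2) / R ^ 2) 0 = 0 := by
        refine max_eq_right ?_
        rw [sub_nonpos, le_div_iff₀ (by have := hR.1; positivity), one_mul]
        have h2 : (2 * R₀) ^ 2 < ∑ j, a j * ξ j ^ 2 := by
          rw [hK, mem_ofPred_eq] at hξ
          push Not at hξ
          exact hξ
        have h3 : R ^ 2 ≤ (2 * R₀) ^ 2 := by
          have := hR.1
          have := hR.2
          exact pow_le_pow_left₀ (by linarith) (by linarith) 2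
        linarith
      rw [h1, Real.zero_rpow hδ.ne']
      simp
  · exact (integrable_indicator_iff hKm).2 (integrableOn_const hKf)
  · refine Filter.Eventually.of_forall fun ξ => ?_
    have h1 : ContinuousAt (fun R : ℝ => (max (1 - (∑ j, a j * ξ j ^ 2) / R ^ 2) 0) ^ δ) R₀ := by
      refine ContinuousAt.rpow_const ?_ (Or.inr hδ.le)
      have h2 : ContinuousAt (fun R : ℝ => 1 - (∑ j, a j * ξ j ^ 2) / R ^ 2) R₀ :=
        continuousAt_const.sub (ContinuousAt.div continuousAt_const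
          (continuousAt_id.pow 2) (pow_pos hR₀ 2).ne')
      exact (h2.sup continuousAt_const :)
    exact ((continuous_ofReal.continuousAt.comp h1).mul continuousAt_const).mul continuousAt_const

/-- the supremum over the positive rationals -/
noncomputable def Mq (δ : ℝ) (a : Fin n → ℝ) (f : (Fin n → ℝ) → ℂ) (x : Fin n → ℝ) : ℝ≥0∞ :=
  ⨆ R : {R : ℚ // 0 < R}, ‖S δ a (R : ℚ) f x‖ₑ

lemma Mx_eq {δ : ℝ} (hδ : 0 < δ) {a : Fin n → ℝ} (ha : ∀ j, 0 < a j) (f : (Fin n → ℝ) → ℂ)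
    (hf : Integrable f) (x : Fin n → ℝ) : Mx δ a f x = Mq δ a f x := by
  refine le_antisymm (iSup_le fun R => ?_) (iSup_le fun R => ?_)
  · refine le_of_forall_lt fun t ht => ?_
    have hcont : ContinuousAt (fun R : ℝ => ‖S δ a R f x‖ₑ) (R : ℝ) :=
      (cont_R hδ ha f hf x R.2).enorm
    have hev : ∀ᶠ r in nhds (R : ℝ), t < ‖S δ a r f x‖ₑ ∧ 0 < r :=
      (hcont.eventually (lt_mem_nhds ht)).and (lt_mem_nhds R.2)
    obtain ⟨U, hU, hUo, hRU⟩ := eventually_nhds_iff.1 hev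
    obtain ⟨q, hq⟩ := Rat.isDenseEmbedding_coe_real.dense.exists_mem_open hUo ⟨_, hRU⟩
    obtain ⟨h1, h2⟩ := hU _ hq
    have hq0 : 0 < q := by exact_mod_cast h2
    exact h1.trans_le (le_iSup (fun R : {R : ℚ // 0 < R} => ‖S δ a (R : ℚ) f x‖ₑ) ⟨q, hq0⟩)
  · have hR : (0 : ℝ) < ((R : ℚ) : ℝ) := by exact_mod_cast R.2
    exact le_iSup (fun R : {R : ℝ // 0 < R} => ‖S δ a R f x‖ₑ) ⟨_, hR⟩

lemma S_meas (δ R : ℝ) (f : (Fin n → ℝ) → ℂ) (hf : Integrable f) :
    Measurable (fun q : (Fin n → ℝ) × (Fin n → ℝ) => S δ q.1 R f q.2) := by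
  have hFc : Continuous (fun ξ : Fin n → ℝ => ∫ y : Fin n → ℝ, cexp (-(2 * (Real.pi : ℂ) * I *
      ((∑ j, y j * ξ j : ℝ) : ℂ))) * f y) := by
    refine continuous_of_dominated (bound := fun y => ‖f y‖) ?_ ?_ hf.norm ?_
    · intro ξ
      refine AEStronglyMeasurable.mul ?_ hf.aestronglyMeasurable
      exact Continuous.aestronglyMeasurable (by fun_prop)
    · intro ξ
      refine Filter.Eventually.of_forall fun y => ?_
      rw [norm_mul, show -(2 * (Real.pi : ℂ) * I * ((∑ j, y j * ξ j : ℝ) : ℂ)) =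
        ((-(2 * Real.pi * ∑ j, y j * ξ j) : ℝ) : ℂ) * I by push_cast; ring,
        norm_exp_ofReal_mul_I, one_mul]
    · refine Filter.Eventually.of_forall fun y => ?_
      fun_prop
  unfold S
  refine StronglyMeasurable.measurable ?_
  refine StronglyMeasurable.integral_prod_right (f := fun (q : (Fin n → ℝ) × (Fin n → ℝ))
    (ξ : Fin n → ℝ) => (((max (1 - (∑ j, q.1 j * ξ j ^ 2) / R ^ 2) 0) ^ δ : ℝ) : ℂ) *
    (∫ y : Fin n → ℝ, cexp (-(2 * (Real.pi : ℂ) * I * ((∑ j, y j * ξ j : ℝ) : ℂ))) * f y) *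
    cexp (2 * (Real.pi : ℂ) * I * ((∑ j, q.2 j * ξ j : ℝ) : ℂ))) ?_
  refine Measurable.stronglyMeasurable ?_
  refine Measurable.mul (Measurable.mul ?_ ?_) ?_
  · fun_prop
  · exact hFc.measurable.comp measurable_snd
  · exact Continuous.measurable (by fun_prop)

/-- for almost every ellipsoid the maximal function is in `L^p` -/
theorem ae_finite (p δ : ℝ) (hp : 2 ≤ p) (hp4 : p ≤ 4) (hδ : 0 < δ) (f : (Fin n → ℝ) → ℂ)
    (hf : Integrable f) (hfp : ∫⁻ x, ‖f x‖ₑ ^ p ≠ ⊤) :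
    ∀ᵐ a : Fin n → ℝ, (∀ j, 0 < a j) → ∫⁻ x, Mx δ a f x ^ p < ⊤ := by
  obtain ⟨C, hC, h⟩ := boxes (n := n) p δ hp hp4 hδ
  have hmeas : Measurable (fun a : Fin n → ℝ => ∫⁻ x, Mq δ a f x ^ p) := by
    have h1 : Measurable (fun q : (Fin n → ℝ) × (Fin n → ℝ) => Mq δ q.1 f q.2 ^ p) := by
      refine Measurable.pow_const ?_ p
      exact Measurable.iSup fun R => (S_meas δ ((R : ℚ) : ℝ) f hf).enorm
    exact h1.lintegral_prod_right'
  -- the boxes
  have hbox : ∀ k : Fin n → ℤ, ∀ᵐ a : Fin n → ℝ,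
      a ∈ Icc (fun j => (2 : ℝ) ^ k j) (fun j => 2 * (2 : ℝ) ^ k j) → ∫⁻ x, Mx δ a f x ^ p < ⊤ := by
    intro k
    have hc : ∀ j, 0 < (fun j => (2 : ℝ) ^ k j) j := fun j => by positivity
    have h1 := h _ hc f hf
    have h2 : ∫⁻ a in Icc (fun j => (2 : ℝ) ^ k j) (fun j => 2 * (2 : ℝ) ^ k j),
        ∫⁻ x, Mq δ a f x ^ p ≠ ⊤ := by
      have e : ∫⁻ a in Icc (fun j => (2 : ℝ) ^ k j) (fun j => 2 * (2 : ℝ) ^ k j),
          ∫⁻ x, Mq δ a f x ^ p = ∫⁻ a in Icc (fun j => (2 : ℝ) ^ k j)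
          (fun j => 2 * (2 : ℝ) ^ k j), ∫⁻ x, Mx δ a f x ^ p := by
        refine setLIntegral_congr_fun measurableSet_Icc fun a ha => ?_
        have ha0 : ∀ j, 0 < a j := fun j => (hc j).trans_le (ha.1 j)
        simp only [Mx_eq hδ ha0 f hf]
      rw [e]
      exact (h1.trans_lt (ENNReal.mul_lt_top ENNReal.ofReal_lt_top hfp.lt_top)).ne
    have h3 := ae_lt_top hmeas h2
    rw [ae_restrict_iff' measurableSet_Icc] at h3
    filter_upwards [h3] with a ha hmem
    have ha0 : ∀ j, 0 < a j := fun j => (hc j).trans_le (hmem.1 j)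
    simp only [Mx_eq hδ ha0 f hf]
    exact ha hmem
  have hall : ∀ᵐ a : Fin n → ℝ, ∀ k : Fin n → ℤ,
      a ∈ Icc (fun j => (2 : ℝ) ^ k j) (fun j => 2 * (2 : ℝ) ^ k j) → ∫⁻ x, Mx δ a f x ^ p < ⊤ :=
    ae_all_iff.2 hbox
  filter_upwards [hall] with a ha ha0
  have hk : ∀ j, ∃ k : ℤ, (2 : ℝ) ^ k ≤ a j ∧ a j < (2 : ℝ) ^ (k + 1) := fun j =>
    exists_mem_Ico_zpow (ha0 j) (by norm_num)
  choose k hk1 hk2 using hk
  refine ha k ⟨fun j => hk1 j, fun j => ?_⟩
  have := (hk2 j).le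
  rw [zpow_add_one₀ (by norm_num)] at this
  linarith

end Pool.Agent.W203.BE
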